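import Pool.Agent.H961R2.Lev.Stubs

open MeasureTheory Set Filter Topology InnerProductSpace Complex

namespace H961Lev

theorem T_F5 (hT1 : S_T1) (hM2 : S_M2) (hM3 : S_M3) (hF1 : S_F1) (hF2 : S_F2) (hF4 : S_F4) :
    S_F5 := by
  intro δ h0 h1
  obtain ⟨hv, hvpos, hRDt, hRDh, hrefl, hper, hbd⟩ := hM3 δ h0 h1
  refine ⟨?_, ⟨hRDt, ?_⟩, ?_⟩
  · intro E U hE hU x
    obtain ⟨hE', hU'⟩ := hT1 δ E U x h0 hE hU
    have := (hF1 δ _ _ h0 h1 hE' hU').2.2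
    rw [hv] at this
    simpa using this
  · obtain ⟨_, hU'⟩ := hT1 δ (Eh δ) (Ut δ) (1 / 2) h0 hRDh (hM2 δ h0 h1)
    have hset : {x : ℝ | x + 1 / 2 ∈ Eh δ} = Et δ := by
      ext x
      simp only [Eh, Et, Set.mem_setOf_eq]
      constructor
      · rintro ⟨n, hn⟩; exact ⟨n, by rw [show x - n = x + 1 / 2 - (n + 1 / 2) by ring]; exact hn⟩
      · rintro ⟨n, hn⟩; exact ⟨n, by rw [show x + 1 / 2 - (n + 1 / 2) = x - n by ring]; exact hn⟩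
    rw [hset] at hU'
    refine ⟨_, hU', ?_⟩
    have e : (1 / 2 : ℂ) + ((1 / 2 : ℝ) : ℂ) = 0 + 1 := by push_cast; norm_num
    show Ut δ ((1 / 2 : ℂ) + ((1 / 2 : ℝ) : ℂ)) = cval δ
    rw [e, hper, hv]
  · intro E U x₀ hE hU hx
    obtain ⟨hE', hU'⟩ := hT1 δ E U x₀ h0 hE hU
    have h00 : (fun z : ℂ => U (z + x₀)) 0 = Ut δ 0 := by
      simp only [zero_add]; rw [hx, hv]
    have heq := hF2 δ _ _ h0 h1 hE' hU' h00
    have hset := hF4 _ _ _ _ hE'.1 hRDh.1 hU' (hM2 δ h0 h1) hrefl heq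
    ext x
    have : x ∈ E ↔ x - x₀ ∈ {x : ℝ | x + x₀ ∈ E} := by simp
    rw [this, hset]
    simp only [Eh, Set.mem_setOf_eq]
    constructor
    · rintro ⟨n, hn⟩; exact ⟨n, by rw [show x - (x₀ + 1 / 2 + n) = x - x₀ - (n + 1 / 2) by ring]; exact hn⟩
    · rintro ⟨n, hn⟩; exact ⟨n, by rw [show x - x₀ - (n + 1 / 2) = x - (x₀ + 1 / 2 + n) by ring]; exact hn⟩

end H961Lev
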