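import Pool.Agent.H961R2.Lev.Stubs

open MeasureTheory Set Filter Topology InnerProductSpace Complex

namespace H961Lev

/-- `E` is closed and every interval of length `N` meets it in measure at least `δ`. -/
def RDN (N δ : ℝ) (E : Set ℝ) : Prop :=
  IsClosed E ∧ ∀ a : ℝ, ENNReal.ofReal δ ≤ volume (E ∩ Icc a (a + N))

theorem scale_levin (hH1 : S_H1) {E : Set ℝ} {U : ℂ → ℝ} (hU : IsLevin E U) {N : ℝ} (hN : 0 < N) :
    IsLevin {x : ℝ | N * x ∈ E} (fun z => U (N * z) / N) := by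
  have key : ∀ z : ℂ, z ∉ ((fun x : ℝ => (x : ℂ)) '' {x : ℝ | N * x ∈ E}) →
      (N : ℂ) * z ∉ ((fun x : ℝ => (x : ℂ)) '' E) := by
    rintro z hz ⟨x, hx, hxz⟩
    apply hz
    refine ⟨x / N, ?_, ?_⟩
    · show N * (x / N) ∈ E
      rwa [mul_div_cancel₀ x hN.ne']
    · show ((x / N : ℝ) : ℂ) = z
      have hxz' : (x : ℂ) = N * z := hxz
      have hNc : (N : ℂ) ≠ 0 := by exact_mod_cast hN.ne'
      push_cast
      rw [hxz', mul_div_cancel_left₀ _ hNc]
  refine ⟨?_, ?_, ?_, ?_, ?_, ?_⟩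
  · exact (hU.cont.comp (by fun_prop)).div_const N
  · intro x hx
    have := hU.zero _ hx
    push_cast at this
    show U (N * x) / N = 0
    rw [this, zero_div]
  · intro z hz
    exact div_pos (hU.pos _ (key z hz)) hN
  · intro z hz
    have h1 : HarmonicAt U ((N : ℂ) * z) := hU.harm _ (key z hz)
    have h2 := hH1.1 U (fun w => (N : ℂ) * w) z (by fun_prop) h1
    have h3 := h2.const_smul (c := 1 / N)
    have : (fun z : ℂ => U (N * z) / N) = (1 / N : ℝ) • (fun w : ℂ => U (N * w)) := by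
      ext w; simp [div_eq_inv_mul]
    rw [this]; exact h3
  · intro z
    have := hU.symm (N * z)
    rw [map_mul, Complex.conj_ofReal] at this
    show U (N * (starRingEnd ℂ) z) / N = U (N * z) / N
    rw [this]
  · have h1 : Tendsto (fun y : ℝ => N * y) atTop atTop := Filter.tendsto_id.const_mul_atTop hN
    have h2 := hU.norm.comp h1
    refine h2.congr ?_
    intro y
    simp only [Function.comp]
    push_cast
    rw [mul_assoc, ← div_div]

theorem scale_RDN {E : Set ℝ} {N δ : ℝ} (hN : 0 < N) (hE : RDN N δ E) :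
    RD (δ / N) {x : ℝ | N * x ∈ E} := by
  refine ⟨hE.1.preimage (by fun_prop), ?_⟩
  intro a
  have h := hE.2 (N * a)
  have hs : {x : ℝ | N * x ∈ E} ∩ Icc a (a + 1) = (fun x : ℝ => N * x) ⁻¹' (E ∩ Icc (N * a) (N * a + N)) := by
    ext x
    simp only [Set.mem_inter_iff, Set.mem_preimage, Set.mem_Icc]
    constructor
    · rintro ⟨h1, h2, h3⟩
      refine ⟨h1, by nlinarith, by nlinarith⟩
    · rintro ⟨h1, h2, h3⟩
      refine ⟨h1, le_of_mul_le_mul_left h2 hN, ?_⟩
      have : N * x ≤ N * (a + 1) := by linarith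
      exact le_of_mul_le_mul_left this hN
  rw [hs, Real.volume_preimage_mul_left hN.ne']
  rw [abs_of_pos (inv_pos.mpr hN), div_eq_inv_mul, ENNReal.ofReal_mul (inv_pos.mpr hN).le]
  gcongr

theorem RDN_scale {E : Set ℝ} {N δ : ℝ} (hN : 0 < N) (hE : RD (δ / N) {x : ℝ | N * x ∈ E}) :
    RDN N δ E := by
  have hcl : IsClosed E := by
    have h := hE.1.preimage (f := fun x : ℝ => x / N) (by fun_prop)
    have : (fun x : ℝ => x / N) ⁻¹' {x : ℝ | N * x ∈ E} = E := by
      ext x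
      simp only [Set.mem_preimage, Set.mem_setOf_eq, mul_div_cancel₀ x hN.ne']
    rwa [this] at h
  refine ⟨hcl, ?_⟩
  intro a
  have h := hE.2 (a / N)
  have hs : {x : ℝ | N * x ∈ E} ∩ Icc (a / N) (a / N + 1) = (fun x : ℝ => N * x) ⁻¹' (E ∩ Icc a (a + N)) := by
    ext x
    simp only [Set.mem_inter_iff, Set.mem_preimage, Set.mem_Icc]
    constructor
    · rintro ⟨h1, h2, h3⟩
      refine ⟨h1, ?_, ?_⟩
      · rw [div_le_iff₀ hN] at h2; linarith
      · have : x - 1 ≤ a / N := by linarith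
        rw [le_div_iff₀ hN] at this; linarith
    · rintro ⟨h1, h2, h3⟩
      refine ⟨h1, ?_, ?_⟩
      · rw [div_le_iff₀ hN]; linarith
      · have : x - 1 ≤ a / N := by rw [le_div_iff₀ hN]; linarith
        linarith
  rw [hs, Real.volume_preimage_mul_left hN.ne', abs_of_pos (inv_pos.mpr hN), div_eq_inv_mul,
    ENNReal.ofReal_mul (inv_pos.mpr hN).le] at h
  have hne : ENNReal.ofReal N⁻¹ ≠ 0 := by simpa using hN
  exact (ENNReal.mul_le_mul_iff_right hne ENNReal.ofReal_ne_top).mp h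

/-- the full theorem, for every window length `N` -/
theorem full_of (hH1 : S_H1) (hF5 : S_F5) (N δ : ℝ) (h0 : 0 < δ) (h1 : δ < N) :
    (∀ (E : Set ℝ) (U : ℂ → ℝ), RDN N δ E → IsLevin E U →
      ∀ x : ℝ, U x ≤ N / Real.pi * Real.log (Real.cot (Real.pi * δ / (4 * N)))) ∧
    (RDN N δ {x : ℝ | ∃ n : ℤ, |x - n * N| ≤ δ / 2} ∧
      ∃ U : ℂ → ℝ, IsLevin {x : ℝ | ∃ n : ℤ, |x - n * N| ≤ δ / 2} U ∧
        U (N / 2) = N / Real.pi * Real.log (Real.cot (Real.pi * δ / (4 * N)))) ∧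
    (∀ (E : Set ℝ) (U : ℂ → ℝ) (x₀ : ℝ), RDN N δ E → IsLevin E U →
      U x₀ = N / Real.pi * Real.log (Real.cot (Real.pi * δ / (4 * N))) →
      E = {x : ℝ | ∃ n : ℤ, |x - (x₀ + N / 2 + n * N)| ≤ δ / 2}) := by
  have hN : 0 < N := h0.trans h1
  have hd0 : 0 < δ / N := div_pos h0 hN
  have hd1 : δ / N < 1 := (div_lt_one hN).mpr h1
  have hval : N * cval (δ / N) = N / Real.pi * Real.log (Real.cot (Real.pi * δ / (4 * N))) := by
    rw [cval, show Real.pi * (δ / N) / 4 = Real.pi * δ / (4 * N) by field_simp]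
    ring
  obtain ⟨H1, ⟨H2, U₀, hU₀, hU₀v⟩, H3⟩ := hF5 (δ / N) hd0 hd1
  refine ⟨?_, ?_, ?_⟩
  · intro E U hE hU x
    have h := H1 _ _ (scale_RDN hN hE) (scale_levin hH1 hU hN) (x / N)
    have e : (N : ℂ) * ((x / N : ℝ) : ℂ) = x := by
      have hNc : (N : ℂ) ≠ 0 := by exact_mod_cast hN.ne'
      push_cast
      field_simp
    simp only [e] at h
    rw [← hval]
    rw [div_le_iff₀ hN] at h
    linarith
  · have hset : {x : ℝ | N * x ∈ {x : ℝ | ∃ n : ℤ, |x - n * N| ≤ δ / 2}} = Et (δ / N) := by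
      ext x
      simp only [Set.mem_setOf_eq, Et]
      refine exists_congr fun n => ?_
      rw [show N * x - n * N = N * (x - n) by ring, abs_mul, abs_of_pos hN,
        show δ / N / 2 = (δ / 2) / N by ring, le_div_iff₀ hN, mul_comm]
    have hset2 : {x : ℝ | N⁻¹ * x ∈ Et (δ / N)} = {x : ℝ | ∃ n : ℤ, |x - n * N| ≤ δ / 2} := by
      ext x
      rw [← hset]
      simp only [Set.mem_setOf_eq]
      rw [mul_inv_cancel_left₀ hN.ne']
    refine ⟨RDN_scale hN (by rw [hset]; exact H2), ?_⟩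
    have h := scale_levin hH1 hU₀ (inv_pos.mpr hN)
    rw [hset2] at h
    refine ⟨_, h, ?_⟩
    have e : ((N⁻¹ : ℝ) : ℂ) * ((N : ℂ) / 2) = 1 / 2 := by
      push_cast
      have : (N : ℂ) ≠ 0 := by exact_mod_cast hN.ne'
      field_simp
    simp only [e]
    rw [hU₀v, ← hval, div_inv_eq_mul, mul_comm]
  · intro E U x₀ hE hU hx
    have e : (N : ℂ) * ((x₀ / N : ℝ) : ℂ) = x₀ := by
      push_cast
      have : (N : ℂ) ≠ 0 := by exact_mod_cast hN.ne'
      field_simp
    have h := H3 _ _ (x₀ / N) (scale_RDN hN hE) (scale_levin hH1 hU hN) (by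
      simp only [e]
      rw [hx, ← hval]
      field_simp)
    ext x
    have h2 : x ∈ E ↔ x / N ∈ {x : ℝ | N * x ∈ E} := by
      simp only [Set.mem_setOf_eq, mul_div_cancel₀ x hN.ne']
    rw [h2, h]
    simp only [Set.mem_setOf_eq]
    refine exists_congr fun n => ?_
    rw [show x / N - (x₀ / N + 1 / 2 + n) = (x - (x₀ + N / 2 + n * N)) / N by field_simp,
      abs_div, abs_of_pos hN, show δ / N / 2 = (δ / 2) / N by ring, div_le_div_iff_of_pos_right hN]

end H961Lev
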