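import Mathlib

/-!
# The Levin function of a relatively dense set (MP_cebbdc_an)

Definitions used by all files of the project.
-/

open MeasureTheory Set Filter Topology InnerProductSpace Complex

namespace H961Lev

/-- `U` is the (normalised, symmetric) positive harmonic function of `ℂ ∖ E` vanishing on `E ⊆ ℝ`. -/
structure IsLevin (E : Set ℝ) (U : ℂ → ℝ) : Prop where
  cont : Continuous U
  zero : ∀ x ∈ E, U (x : ℂ) = 0
  pos : ∀ z : ℂ, z ∉ ((fun x : ℝ => (x : ℂ)) '' E) → 0 < U z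
  harm : HarmonicOnNhd U ((fun x : ℝ => (x : ℂ)) '' E)ᶜ
  symm : ∀ z : ℂ, U ((starRingEnd ℂ) z) = U z
  norm : Tendsto (fun y : ℝ => U (y * I) / y) atTop (𝓝 1)

/-- `E` is closed and every interval of length `1` meets it in measure at least `δ`. -/
def RD (δ : ℝ) (E : Set ℝ) : Prop :=
  IsClosed E ∧ ∀ a : ℝ, ENNReal.ofReal δ ≤ volume (E ∩ Icc a (a + 1))

/-- the periodic set `⋃ [n - δ/2, n + δ/2]` -/
def Et (δ : ℝ) : Set ℝ := {x | ∃ n : ℤ, |x - n| ≤ δ / 2}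

/-- the same set with a gap centred at `0`: `⋃ [n + 1/2 - δ/2, n + 1/2 + δ/2]` -/
def Eh (δ : ℝ) : Set ℝ := {x | ∃ n : ℤ, |x - (n + 1 / 2)| ≤ δ / 2}

/-- `κ = sin (π δ / 2)` -/
noncomputable def kp (δ : ℝ) : ℝ := Real.sin (Real.pi * δ / 2)

/-- the Levin function of `Eh δ` -/
noncomputable def Ut (δ : ℝ) (z : ℂ) : ℝ :=
  Real.arcosh ((‖Complex.cos (Real.pi * z) - (kp δ : ℂ)‖ + ‖Complex.cos (Real.pi * z) + (kp δ : ℂ)‖) /
    (2 * kp δ)) / Real.pi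

/-- the extremal value -/
noncomputable def cval (δ : ℝ) : ℝ := Real.log (Real.cot (Real.pi * δ / 4)) / Real.pi

/-- Poisson kernel of the upper half plane -/
noncomputable def PK (y t : ℝ) : ℝ := y / (Real.pi * (t ^ 2 + y ^ 2))

/-- nonnegative harmonic function in the open upper half plane, continuous on the closed one -/
structure PosHalf (u : ℂ → ℝ) : Prop where
  cont : ContinuousOn u {z : ℂ | 0 ≤ z.im}
  harm : HarmonicOnNhd u {z : ℂ | 0 < z.im}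
  nonneg : ∀ z : ℂ, 0 ≤ z.im → 0 ≤ u z

/-- arclength parametrisation of the circle of centre `iR` and radius `R`, `t ∈ [-πR, πR]` -/
noncomputable def zet (R t : ℝ) : ℂ :=
  ((R * Real.sin (t / R) : ℝ) : ℂ) + ((R * (1 - Real.cos (t / R)) : ℝ) : ℂ) * I

/-- Poisson kernel of that disc, in the arclength parameter -/
noncomputable def KR (R : ℝ) (z : ℂ) (t : ℝ) : ℝ :=
  (2 * R * z.im - ‖z‖ ^ 2) / (R * ‖zet R t - z‖ ^ 2)

/-! ### lattice -/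

/-- the class `𝒞(m,c)`: `0 ≤ ψ ≤ c`, every window of `N` consecutive sites has sum `≤ m c` -/
def C9 (N : ℕ) (m c : ℝ) (ψ : ℤ → ℝ) : Prop :=
  (∀ i, 0 ≤ ψ i ∧ ψ i ≤ c) ∧ ∀ i : ℤ, ∑ k ∈ Finset.range N, ψ (i + k) ≤ m * c

/-- indicator of `{i | ∃ k, |i - k N| ≤ r}` -/
noncomputable def ind (N r : ℕ) (i : ℤ) : ℝ :=
  open Classical in if ∃ k : ℤ, |i - k * N| ≤ r then 1 else 0

/-- two-step averaging -/
noncomputable def A2 (Z : ℤ → ℝ) (i : ℤ) : ℝ := (Z (i - 1) + 2 * Z i + Z (i + 1)) / 4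

/-- mixtures of powers of `A2` -/
noncomputable def Kop (w : ℕ → ℝ) (Z : ℤ → ℝ) (i : ℤ) : ℝ := ∑' j : ℕ, w j * (A2^[j] Z) i

/-- lattice Cauchy kernel -/
noncomputable def kap (a : ℝ) (m : ℤ) : ℝ := a / (Real.pi * (a ^ 2 + (m : ℝ) ^ 2))

/-- the comparison relation -/
def Rel (N R : ℕ) (v w : ℤ → ℝ) : Prop :=
  ∃ (c : ℕ → ℝ) (ψ : ℕ → ℤ → ℝ),
    (∀ r ≤ R, C9 N (2 * r + 1) (c r) (ψ r)) ∧
    (∀ i, v i ≤ ∑ r ∈ Finset.range (R + 1), ψ r i) ∧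
    (∀ i, ∑ r ∈ Finset.range (R + 1), c r * ind N r i ≤ w i)

/-- cell average of `U` on `[(j-1/2)/N, (j+1/2)/N]` -/
noncomputable def cellU (U : ℂ → ℝ) (N : ℕ) (j : ℤ) : ℝ :=
  N * ∫ t in ((j - 1 / 2 : ℝ) / N)..((j + 1 / 2 : ℝ) / N), U (t : ℂ)

/-- the error factor -/
noncomputable def epsf (h : ℝ) (N : ℕ) : ℝ := 1 / (N * h) + 1 / (N * h) ^ 2

end H961Lev
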