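import Pool.Agent.H961R2.Lev.Defs

open MeasureTheory Set Filter Topology InnerProductSpace Complex

namespace H961Lev

/-! ## combinatorics -/

def S_C1 : Prop := ∀ (N : ℕ) (m K K' : ℤ) (x Q : ℤ → ℤ), 0 < m → m < N →
  (∀ t, x t = 0 ∨ x t = 1) → (∀ t : ℤ, ∑ k ∈ Finset.range N, x (t + k) ≤ m) →
  (∀ t, Q t = 0 ∨ Q t = 1) → (∀ t, t < -K → Q t = 0) → (∀ t, K ≤ t → Q t = 1) →
  0 ≤ K → K + N ≤ K' →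
  2 ≤ ∑ t ∈ Finset.Icc (-K') K', (|Q t - Q (t - N)| * |x t - x (t - 1)| +
    |Q t - Q (t - 1)| * (2 * m - ∑ k ∈ Finset.range N, x (t + k)
      - ∑ k ∈ Finset.range N, x (t - 1 + k)))

def S_C2 : Prop := ∀ (N : ℕ) (m K K' : ℤ) (x p : ℤ → ℤ), 0 < m → m < N →
  (∀ t, x t = 0 ∨ x t = 1) → (∀ t : ℤ, ∑ k ∈ Finset.range N, x (t + k) ≤ m) →
  (∀ t, K < |t| → p t = 0) → 0 ≤ K → K + N ≤ K' →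
  2 * ∑ t ∈ Finset.Icc (-K') K', p t ≤ ∑ t ∈ Finset.Icc (-K') K',
    (|∑ k ∈ Finset.range N, p (t - k)| * |x t - x (t - 1)| +
    |p t| * (2 * m - ∑ k ∈ Finset.range N, x (t + k) - ∑ k ∈ Finset.range N, x (t - 1 + k)))

def S_C3 : Prop := ∀ (N : ℕ) (m K K' : ℤ) (ψ : ℤ → ℝ) (p : ℤ → ℤ), 0 < m → m < N →
  (∀ t, 0 ≤ ψ t ∧ ψ t ≤ 1) → (∀ t : ℤ, ∑ k ∈ Finset.range N, ψ (t + k) ≤ m) →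
  (∀ t, K < |t| → p t = 0) → 0 ≤ K → K + N ≤ K' →
  2 * ∑ t ∈ Finset.Icc (-K') K', (p t : ℝ) ≤ ∑ t ∈ Finset.Icc (-K') K',
    (|∑ k ∈ Finset.range N, (p (t - k) : ℝ)| * (1 - |ψ t + ψ (t - 1) - 1|) +
    |(p t : ℝ)| * (2 * m - ∑ k ∈ Finset.range N, ψ (t + k) - ∑ k ∈ Finset.range N, ψ (t - 1 + k)))

/-- potentials for a system of difference constraints -/
def S_C4 : Prop := ∀ (N : ℕ) (cap cup Lo Hi : ℤ → ℝ),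
  (∀ t, 0 ≤ cap t ∧ cap t ≤ cup t ∧ cup t ≤ 1 ∧ Lo t ≤ Hi t) →
  (∀ (p : ℤ → ℤ) (K K' : ℤ), 0 ≤ K → (∀ t, K < |t| → p t = 0) → K + N ≤ K' →
    0 ≤ ∑ t ∈ Finset.Icc (-K') K',
      (max (-(∑ k ∈ Finset.range N, (p (t - k) : ℝ))) 0 * cup t
        - max (∑ k ∈ Finset.range N, (p (t - k) : ℝ)) 0 * cap t
        + max (p t : ℝ) 0 * Hi t - max (-(p t : ℝ)) 0 * Lo t)) →
  ∃ b : ℤ → ℝ, ∀ t : ℤ, cap t ≤ b t ∧ b t ≤ cup t ∧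
    Lo t ≤ ∑ k ∈ Finset.range N, b (t + k) ∧ ∑ k ∈ Finset.range N, b (t + k) ≤ Hi t

/-- Lemma S -/
def S_C5 : Prop := ∀ (N m : ℕ) (c : ℝ) (ψ : ℤ → ℝ), 1 ≤ m → m + 1 ≤ N → C9 N m c ψ →
  ∃ a b : ℤ → ℝ, C9 N (m + 1) c a ∧ C9 N (m - 1) c b ∧ ∀ t, ψ t + ψ (t - 1) = a t + b t

/-- two-step splitting and the identity in the model -/
def S_C6 : Prop := ∀ (N R r : ℕ) (c : ℝ) (ψ : ℤ → ℝ), N = 2 * R + 1 → r ≤ R →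
  C9 N (2 * r + 1) c ψ →
  ∃ (c' : ℕ → ℝ) (ψ' : ℕ → ℤ → ℝ), (∀ r' ≤ R, C9 N (2 * r' + 1) (c' r') (ψ' r')) ∧
    (∀ i, A2 ψ i = ∑ r' ∈ Finset.range (R + 1), ψ' r' i) ∧
    (∀ i, A2 (fun i => c * ind N r i) i = ∑ r' ∈ Finset.range (R + 1), c' r' * ind N r' i)

def S_C7 : Prop := ∀ (N R : ℕ) (v w : ℤ → ℝ), N = 2 * R + 1 → Rel N R v w →
  Rel N R (A2 v) (A2 w)

def S_C8 : Prop := ∀ (N R r : ℕ) (f v w : ℤ → ℝ), N = 2 * R + 1 → r ≤ R →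
  C9 N (2 * r + 1) 1 f → Rel N R v w →
  Rel N R (fun i => f i * v i) (fun i => ind N r i * w i)

def S_C9 : Prop := ∀ (N R : ℕ) (v w : ℕ → ℤ → ℝ) (l : ℕ → ℝ) (B : ℝ), N = 2 * R + 1 →
  (∀ j, Rel N R (v j) (w j)) → (∀ j, 0 ≤ l j) → Summable l →
  (∀ j i, |v j i| ≤ B) → (∀ j i, |w j i| ≤ B) →
  Rel N R (fun i => ∑' j, l j * v j i) (fun i => ∑' j, l j * w j i)

/-- lattice comparison theorem -/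
def S_C10 : Prop := ∀ (N R r : ℕ), N = 2 * R + 1 → r ≤ R → ∀ (w w' : ℕ → ℝ),
  (∀ j, 0 ≤ w j) → Summable w → (∀ j, 0 ≤ w' j) → Summable w' →
  ∀ (h B : ℝ) (f u V : ℤ → ℝ), 0 < h → C9 N (2 * r + 1) 1 f →
  (∀ i, 0 ≤ u i ∧ u i ≤ B) → (∀ i, 0 ≤ V i ∧ V i ≤ B) →
  (∀ i, u i ≤ f i * (h + Kop w u i)) →
  (∀ i, ind N r i = 1 → h + Kop w V i ≤ V i) →
  ∀ i, Kop w' u i ≤ Kop w' V 0

/-! ## kernels -/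

def S_K1 : Prop := ∃ W : ℝ → ℕ → ℝ,
  (∀ a, 0 < a → ∀ j, 0 ≤ W a j) ∧ (∀ a, 0 < a → Summable (W a)) ∧
  (∀ a, 0 < a → ∀ m : ℕ, HasSum (fun j : ℕ => W a j * ((Nat.choose (2 * j) (j + m) : ℝ) / 4 ^ j))
    (1 / (a ^ 2 + (m : ℝ) ^ 2))) ∧
  (∀ s b, 0 < s → s ≤ b → ∀ j, W b j ≤ W s j)

def S_K2 : Prop := ∀ (Z : ℤ → ℝ) (j : ℕ) (i : ℤ),
  (A2^[j] Z) i = ∑ m ∈ Finset.Icc (-(j : ℤ)) j,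
    (Nat.choose (2 * j) (j + m.natAbs) : ℝ) / 4 ^ j * Z (i + m)

def S_K3 : Prop := ∀ (W : ℕ → ℝ) (k : ℤ → ℝ), (∀ j, 0 ≤ W j) → Summable W →
  (∀ m : ℤ, HasSum (fun j : ℕ => W j * ((Nat.choose (2 * j) (j + m.natAbs) : ℝ) / 4 ^ j)) (k m)) →
  ∀ (Z : ℤ → ℝ) (B : ℝ), (∀ i, |Z i| ≤ B) → ∀ i,
    Summable (fun m : ℤ => k m * Z (i + m)) ∧ ∑' m : ℤ, k m * Z (i + m) = Kop W Z i

/-! ## potential theory -/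

/-- harmonic functions and analytic changes of variable, reflection -/
def S_H1 : Prop :=
  (∀ (u : ℂ → ℝ) (f : ℂ → ℂ) (z : ℂ), AnalyticAt ℂ f z → HarmonicAt u (f z) →
    HarmonicAt (fun w => u (f w)) z) ∧
  (∀ (u : ℂ → ℝ) (z : ℂ), HarmonicAt u (-(starRingEnd ℂ) z) →
    HarmonicAt (fun w => u (-(starRingEnd ℂ) w)) z)

def S_P1 : Prop := ∀ (u : ℂ → ℝ), PosHalf u → ∀ (z : ℂ) (R : ℝ), 0 < R →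
  ‖z‖ ^ 2 < 2 * R * z.im →
  u z = (1 / (2 * Real.pi)) * ∫ t in (-(Real.pi * R))..(Real.pi * R), u (zet R t) * KR R z t

def S_P2 : Prop := ∀ (u : ℂ → ℝ), PosHalf u → ∀ (z : ℂ), 0 < z.im → ∀ M : ℝ, 0 < M →
  Tendsto (fun R : ℝ => ∫ t in (-M)..M, u (zet R t) * KR R z t) atTop
    (𝓝 (2 * Real.pi * ∫ t in (-M)..M, PK z.im (z.re - t) * u (t : ℂ)))

def S_P3 : Prop := ∀ (z z' : ℂ), 0 < z.im → 0 < z'.im → ∀ ε : ℝ, 0 < ε →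
  ∃ M₀ : ℝ, 0 < M₀ ∧ ∀ M : ℝ, M₀ ≤ M → ∃ R₀ : ℝ, 0 < R₀ ∧ ∀ R : ℝ, R₀ ≤ R →
    ∀ t : ℝ, M ≤ |t| → |t| ≤ Real.pi * R →
      0 ≤ KR R z t ∧ KR R z t ≤ (1 + ε) * (z.im / z'.im) * KR R z' t

/-- Herglotz/Poisson representation in the half plane -/
def S_P4 : Prop := ∀ (u : ℂ → ℝ) (A : ℝ), PosHalf u →
  Tendsto (fun y : ℝ => u (y * I) / y) atTop (𝓝 A) →
  Integrable (fun t : ℝ => u (t : ℂ) / (1 + t ^ 2)) ∧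
  ∀ x y : ℝ, 0 < y → Integrable (fun t : ℝ => PK y (x - t) * u (t : ℂ)) ∧
    u (x + y * I) = A * y + ∫ t : ℝ, PK y (x - t) * u (t : ℂ)

/-- maximum principle -/
def S_P5 : Prop := ∀ (K Ω : Set ℂ) (w : ℂ → ℝ), IsCompact K → IsOpen Ω → Ω ⊆ K →
  ContinuousOn w K → (∀ z ∈ Ω, 0 < w z → HarmonicAt w z) → (∀ z ∈ K \ Ω, w z ≤ 0) →
  ∀ z ∈ K, w z ≤ 0

/-- Harnack inequalities -/
def S_P6 : Prop := ∀ (u : ℂ → ℝ) (A : ℝ), PosHalf u →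
  Tendsto (fun y : ℝ => u (y * I) / y) atTop (𝓝 A) → 0 ≤ A →
  (∀ x y s : ℝ, 0 < y → 0 < s →
    (y / (y + s)) * u (x + y * I) ≤ u (x + (y + s : ℝ) * I) ∧
    u (x + (y + s : ℝ) * I) ≤ ((y + s) / y) * u (x + y * I)) ∧
  (∀ x x' d H : ℝ, 0 < H → |x - x'| ≤ d →
    u (x' + H * I) ≤ (1 + d / H + d ^ 2 / H ^ 2) * u (x + H * I))

/-- growth in strips -/
def S_P7 : Prop := ∀ (E : Set ℝ) (U : ℂ → ℝ), IsClosed E → IsLevin E U → ∀ Y : ℝ, 0 < Y →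
  ∃ C : ℝ, ∀ z : ℂ, |z.im| ≤ Y → U z ≤ C * (1 + z.re ^ 2)

def S_P8 : Prop := ∀ (E : Set ℝ) (U : ℂ → ℝ), IsClosed E → IsLevin E U → ∀ x h : ℝ, 0 < h →
  U (x : ℂ) ≤ U (x + h * I)

/-- boundedness on the line -/
def S_P9 : Prop := ∀ (δ : ℝ) (E : Set ℝ) (U : ℂ → ℝ), 0 < δ → RD δ E → IsLevin E U →
  ∃ B : ℝ, ∀ x : ℝ, U (x : ℂ) ≤ B

/-- reduction to the lattice -/
def S_P10 : Prop := ∀ (δ : ℝ) (E : Set ℝ) (U : ℂ → ℝ), 0 < δ → δ < 1 → RD δ E → IsLevin E U →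
  ∀ (N : ℕ) (h : ℝ), 0 < N → 0 < h → ∃ f : ℤ → ℝ, (∀ j, 0 ≤ f j ∧ f j ≤ 1) ∧
    (∀ j : ℤ, ∑ k ∈ Finset.range N, f (j + k) ≤ (1 - δ) * N) ∧
    (∀ j : ℤ, cellU U N j ≤
      f j * (h + (1 + epsf h N) * ∑' m : ℤ, kap (h * N) m * cellU U N (j + m)))

/-- translations -/
def S_T1 : Prop := ∀ (δ : ℝ) (E : Set ℝ) (U : ℂ → ℝ) (a : ℝ), 0 < δ → RD δ E → IsLevin E U →
  RD δ {x : ℝ | x + a ∈ E} ∧ IsLevin {x : ℝ | x + a ∈ E} (fun z => U (z + a))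

/-! ## the model -/

def S_M1 : Prop := ∀ (δ : ℝ) (z : ℂ), 0 < δ → δ < 1 →
  z ∉ ((fun x : ℝ => (x : ℂ)) '' (Eh δ)) → 0 < Ut δ z ∧ HarmonicAt (Ut δ) z

def S_M2 : Prop := ∀ δ : ℝ, 0 < δ → δ < 1 → IsLevin (Eh δ) (Ut δ)

def S_M3 : Prop := ∀ δ : ℝ, 0 < δ → δ < 1 → Ut δ 0 = cval δ ∧ 0 < cval δ ∧ RD δ (Et δ) ∧
  RD δ (Eh δ) ∧ (∀ z : ℂ, Ut δ (-(starRingEnd ℂ) z) = Ut δ z) ∧
  (∀ z : ℂ, Ut δ (z + 1) = Ut δ z) ∧ (∀ x : ℝ, 0 ≤ Ut δ x ∧ Ut δ x ≤ Ut δ 0)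

def S_M4 : Prop := ∀ δ : ℝ, 0 < δ → δ < 1 → (∀ (δ' : ℝ) (x : ℝ), 0 < δ' → δ' ≤ δ →
    Ut δ x ≤ Ut δ' x) ∧
  ∀ z : ℂ, Tendsto (fun δ' : ℝ => Ut δ' z) (𝓝[<] δ) (𝓝 (Ut δ z))

/-- second order bound in the (smaller) gap -/
def S_M5 : Prop := ∀ δ' ρ : ℝ, 0 < δ' → δ' < 1 → 0 < ρ → ρ < (1 - δ') / 2 →
  ∃ C h₀ : ℝ, 0 < C ∧ 0 < h₀ ∧ ∀ (n : ℤ) (x h : ℝ), |x - n| ≤ ρ → 0 < h → h ≤ h₀ →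
    Ut δ' (x + h * I) ≤ Ut δ' x + C * h ^ 2

/-- Riemann sums, uniform version -/
def S_L1 : Prop := ∀ (G : ℝ → ℝ), Continuous G → (∀ x, G (x + 1) = G x) → (∀ x, 0 ≤ G x) →
  ∀ h e : ℝ, 0 < h → 0 < e → ∃ N₀ : ℕ, ∀ N : ℕ, N₀ ≤ N → ∀ i : ℤ,
    ∑' m : ℤ, kap (h * N) m * G (((i + m : ℤ) : ℝ) / N) ≤
      (∫ t : ℝ, PK h ((i : ℝ) / N - t) * G t) + e

/-- Riemann sums for the kernel difference, upper bound of the sum -/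
def S_L2 : Prop := ∀ (G : ℝ → ℝ), Continuous G → (∀ x, G (x + 1) = G x) → (∀ x, 0 ≤ G x) →
  ∀ s b e : ℝ, 0 < s → s < b → 0 < e → ∃ N₀ : ℕ, ∀ N : ℕ, N₀ ≤ N →
    N * ∑' m : ℤ, (1 / ((s * N) ^ 2 + (m : ℝ) ^ 2) - 1 / ((b * N) ^ 2 + (m : ℝ) ^ 2)) *
        G ((m : ℝ) / N) ≤
      (∫ t : ℝ, (1 / (t ^ 2 + s ^ 2) - 1 / (t ^ 2 + b ^ 2)) * G t) + e

/-- Riemann sums for the kernel difference, upper bound of the integral by cell averages -/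
def S_L3 : Prop := ∀ (U : ℂ → ℝ) (B : ℝ), Continuous U → (∀ x : ℝ, 0 ≤ U x ∧ U x ≤ B) →
  ∀ s b e : ℝ, 0 < s → s < b → 0 < e → ∃ N₀ : ℕ, ∀ N : ℕ, N₀ ≤ N →
    (∫ t : ℝ, (1 / (t ^ 2 + s ^ 2) - 1 / (t ^ 2 + b ^ 2)) * U t) ≤
    N * ∑' m : ℤ, (1 / ((s * N) ^ 2 + (m : ℝ) ^ 2) - 1 / ((b * N) ^ 2 + (m : ℝ) ^ 2)) *
        cellU U N m + e

/-- supersolution in the model -/
def S_M6 : Prop := ∀ δ δ' : ℝ, 0 < δ' → δ' < δ → δ < 1 → ∃ C h₀ : ℝ, 0 < C ∧ 0 < h₀ ∧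
  ∀ h : ℝ, 0 < h → h ≤ h₀ → ∃ N₀ : ℕ, ∀ N : ℕ, N₀ ≤ N → ∀ r : ℕ,
    (2 * r + 1 : ℝ) < (1 - δ) * N + 2 → ∀ i : ℤ, ind N r i = 1 →
    h + (1 + epsf h N) * ∑' m : ℤ, kap (h * N) m *
        ((1 + C * h) * Ut δ' (((i + m : ℤ) : ℝ) / N : ℝ)) ≤ (1 + C * h) * Ut δ' ((i : ℝ) / N : ℝ)

/-! ## conclusion -/

/-- main comparison -/
def S_F0 : Prop := ∀ (δ : ℝ) (E : Set ℝ) (U : ℂ → ℝ), 0 < δ → δ < 1 → RD δ E → IsLevin E U →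
  ∀ s b : ℝ, 0 < s → s < b →
    (∫ t : ℝ, (1 / (t ^ 2 + s ^ 2) - 1 / (t ^ 2 + b ^ 2)) * U t) ≤
    (∫ t : ℝ, (1 / (t ^ 2 + s ^ 2) - 1 / (t ^ 2 + b ^ 2)) * Ut δ t)

def S_F1 : Prop := ∀ (δ : ℝ) (E : Set ℝ) (U : ℂ → ℝ), 0 < δ → δ < 1 → RD δ E → IsLevin E U →
  (∀ s b : ℝ, 0 < s → s < b →
    (Ut δ (b * I) - U (b * I)) / b ≤ (Ut δ (s * I) - U (s * I)) / s) ∧
  (∀ y : ℝ, 0 < y → U (y * I) ≤ Ut δ (y * I)) ∧ U 0 ≤ Ut δ 0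

def S_F2 : Prop := ∀ (δ : ℝ) (E : Set ℝ) (U : ℂ → ℝ), 0 < δ → δ < 1 → RD δ E → IsLevin E U →
  U 0 = Ut δ 0 → ∀ y : ℝ, 0 < y → U (y * I) = Ut δ (y * I)

/-- unique continuation -/
def S_F3 : Prop := ∀ D : ℂ → ℝ, HarmonicOnNhd D {z : ℂ | 0 < z.im} →
  (∀ z : ℂ, 0 < z.im → D (-(starRingEnd ℂ) z) = D z) → (∀ y : ℝ, 0 < y → D (y * I) = 0) →
  ∀ z : ℂ, 0 < z.im → D z = 0

def S_F4 : Prop := ∀ (E E' : Set ℝ) (U U' : ℂ → ℝ), IsClosed E → IsClosed E' →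
  IsLevin E U → IsLevin E' U' → (∀ z : ℂ, U' (-(starRingEnd ℂ) z) = U' z) →
  (∀ y : ℝ, 0 < y → U (y * I) = U' (y * I)) → E = E'

/-- the theorem -/
def S_F5 : Prop := ∀ δ : ℝ, 0 < δ → δ < 1 →
  (∀ (E : Set ℝ) (U : ℂ → ℝ), RD δ E → IsLevin E U → ∀ x : ℝ, U x ≤ cval δ) ∧
  (RD δ (Et δ) ∧ ∃ U : ℂ → ℝ, IsLevin (Et δ) U ∧ U (1 / 2) = cval δ) ∧
  (∀ (E : Set ℝ) (U : ℂ → ℝ) (x₀ : ℝ), RD δ E → IsLevin E U → U x₀ = cval δ →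
    E = {x : ℝ | ∃ n : ℤ, |x - (x₀ + 1 / 2 + n)| ≤ δ / 2})

end H961Lev
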